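import Pool.Agent.TH540.Search

/-!
# Voisin's anti-symmetrization conjecture for sixteen types of K3 surfaces

Let `w = (w_0, ..., w_3)` be a list of positive integers with sum `m` and greatest common divisor one.
Let `S` be a complex K3 surface which is birational to a quotient of a Fermat surface of some degree
`d`, divisible by `m`, by diagonal automorphisms, such that the holomorphic 2-form on `S` comes from the
character `(d / m) w` of the Fermat surface. We say that `S` is of type `(m, w)`. Examples: the surface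
`y_0 ^ {m / w_0} + ... + y_3 ^ {m / w_3} = 0` in the weighted projective space with weights `w_i`, if all
`w_i` divide `m`, as in the cases

  `(8; 4, 2, 1, 1)`, `(10; 5, 2, 2, 1)`, `(12; 6, 4, 1, 1)`, `(12; 6, 3, 2, 1)`, `(12; 4, 4, 3, 1)`,
  `(12; 4, 3, 3, 2)`;

or `y_0 ^ 2 y_1 + y_0 y_1 ^ 3 + y_2 ^ 5 + y_3 ^ 5 = 0`, of type `(5; 2, 1, 1, 1)`;
`y_0 ^ 2 y_2 + y_0 y_2 ^ 4 + y_1 ^ 3 y_3 + y_1 y_3 ^ 5 = 0`, of type `(7; 3, 2, 1, 1)`;
`y_0 ^ 3 + y_1 ^ 3 + y_2 ^ 4 y_3 + y_2 y_3 ^ 7 = 0`, of type `(9; 3, 3, 2, 1)`; the elliptic surface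
`y ^ 2 = x ^ 3 + t ^ 3 x + t ^ 7`, of type `(10; 5, 3, 1, 1)`. The transcendental lattice of `S` has rank
`φ(m)`; it is 6 for `m = 7` and `m = 9`, so these surfaces are not Kummer surfaces (where it is at most 5).

By Lefschetz (1,1) and Kimura, with coefficients in a cyclotomic field the transcendental motive
`t_2(S)` is the sum of the motives `V(u w)` of rank one (and of parity 0), where `u` runs through the units
modulo `m`. By Shioda and Katsura, if the `4 k` residues `u_i w_l` can be divided into `2 k - 1` nonempty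
blocks with sum zero, then `V(u_1 w) ⊗ ... ⊗ V(u_k w)` is `M(-(k - 1))` for an effective motive `M`. The
theorem says that this is the case for all pairwise different units `u_1, ..., u_k` for the sixteen
types in the list. As `Λ ^ 2 V(u w) = 0`, the motive `Λ ^ k t_2(S)` is the sum of these tensor products
over the sets `{u_1, ..., u_k}`, and therefore `CH_j(Λ ^ k t_2(S)) = 0` for all `j ≤ k - 2`.

This implies Q1 for `S`, for all `N ≥ 2` and `0 ≤ l < N`. The kernel `K_l` consists of the cycles on the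
part `Λ ^ N (1 + L + ... + L + t_2)` of the motive of `S ^ N` (`1` is `h ^ 0`, the `L` are the algebraic part
of `h ^ 2`), since the projection to the part with `h ^ 4` is the push-forward. So it is a sum of
groups `CH_j(Λ ^ c t_2)` with `c = N - a - b`, `j = l - 2 a - b < c`, and the product of such a cycle with a
zero-cycle of degree zero, which is in `CH_0(t_2)`, is mapped by the projector into
`CH_j(Λ ^ {c + 1} t_2) = 0`.
-/

namespace Pool.Agent.Results.MP_292d0f_ag.FermatK3

/-- The entries of `b 0, ..., b (k - 1)` can be divided into `l` nonempty blocks with sum zero. -/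
def Blocks (m n k l : ℕ) (b : Fin k → Fin n → ZMod m) : Prop :=
  ∃ f : Fin k × Fin n → Fin l, Function.Surjective f ∧ ∀ j, ∑ x with f x = j, b x.1 x.2 = 0

/-- The sixteen types. -/
def types : List (ℕ × (Fin 4 → ℕ)) :=
  [(4, ![1, 1, 1, 1]), (5, ![2, 1, 1, 1]), (6, ![3, 1, 1, 1]), (6, ![2, 2, 1, 1]),
    (7, ![3, 2, 1, 1]), (8, ![4, 2, 1, 1]), (8, ![3, 2, 2, 1]), (9, ![3, 3, 2, 1]),
    (10, ![5, 3, 1, 1]), (10, ![5, 2, 2, 1]), (10, ![4, 3, 2, 1]), (12, ![6, 4, 1, 1]),
    (12, ![6, 3, 2, 1]), (12, ![5, 4, 2, 1]), (12, ![4, 4, 3, 1]), (12, ![4, 3, 3, 2])]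

theorem result (m : ℕ) (w : Fin 4 → ℕ) (h : (m, w) ∈ types) (k : ℕ) (hk : 1 ≤ k)
    (u : Fin k → (ZMod m)ˣ) (hu : Function.Injective u) :
    Blocks m 4 k (2 * k - 1) fun i l => (u i : ZMod m) * (w l : ZMod m) := by
  have hall : ∀ p ∈ types, 2 ≤ p.1 ∧ ∑ l, p.2 l = p.1 ∧
      TH540.SC.decAll p.1 (List.ofFn p.2) = true := by decide +kernel
  obtain ⟨h1, h2, h3⟩ := hall (m, w) h
  simp only at h1 h2 h3
  have hz : NeZero m := ⟨by omega⟩
  have hs : ∑ l, ((w l : ℕ) : ZMod m) = 0 := by
    rw [← Nat.cast_sum, h2, ZMod.natCast_self]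
  have key := TH540.SC.twists
    (TH540.SC.decAll_sound h1 (TH540.SC.vals_ofFn (m := m) w) hs h3) hk u hu
  obtain ⟨l, hl⟩ : ∃ l, 2 * k - 1 = l + 1 := ⟨2 * k - 2, by omega⟩
  rw [hl] at key ⊢
  exact TH540.SC.surj_of_splits key

end Pool.Agent.Results.MP_292d0f_ag.FermatK3
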