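import Pool.Agent.TH540.K3Data

/-!
# Voisin's anti-symmetrization conjecture for 23 further types of K3 surfaces

`w = (w_0, ..., w_3)` are positive integers with sum `m` and greatest common divisor one. A complex K3
surface `S` is of type `(m, w)` if it is birational to a quotient of a Fermat surface of some degree `d`,
divisible by `m`, by diagonal automorphisms, such that the holomorphic 2-form on `S` comes from the
character `(d / m) w`. See FermatK3 (same problem), which treats 16 types by pure splittings into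
blocks. Here `types` lists 23 further types, where algebraic lists of length four are used too.

By Lefschetz (1,1) and Kimura, with coefficients in a cyclotomic field the transcendental motive
`t_2(S)` is the sum of the motives `V(u w)` of rank one (and of parity 0), `u` in the units modulo `m`.
For a list `s` of nonzero residues with sum zero let `V(s)` be the direct summand of the motive of the
Fermat variety of degree `m` and dimension `|s| - 2` with character `s`. Known facts (Shioda, Katsura):
`V(s + s') = V(s) ⊗ V(s')(-1)`; `V({x, -x})` is the unit motive; if `σ` is algebraic (`IsAlg`), then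
all conjugates of `V(σ)` have Hodge type (1,1), and `V(σ)` is the Lefschetz motive. Let `s` be the union of
`u_1 w, ..., u_k w`. If `s`, together with the pairs `x, -x` for `x` in `p`, is composed of `P` and of
algebraic lists `Q`, then `V(u_1 w) ⊗ ... ⊗ V(u_k w)(-(k - 1) - |p|)` is `M(-(|P| + 2 |Q| - 1))` with `M`
effective. So if `|p| + (2 k - 1) ≤ |P| + 2 |Q|` (`DivBy s (2 k - 1)`), then the tensor product is `M(-c)`
with `c ≥ k - 1`. The theorem says that this holds for all pairwise different units `u_1, ..., u_k`. As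
`Λ ^ 2 V(u w) = 0`, it follows that `CH_j(Λ ^ k t_2(S)) = 0` for all `j ≤ k - 2`, and this implies Q1 for
`S`, for all `N ≥ 2` and `0 ≤ l < N`, as explained in FermatK3.
-/

namespace Pool.Agent.Results.MP_292d0f_ag.FermatK3Further

open TH540 TH540.SC

/-- The types. -/
def types : List (ℕ × (Fin 4 → ℕ)) :=
  [(12, ![5, 3, 2, 2]), (14, ![5, 4, 3, 2]), (14, ![7, 3, 2, 2]), (14, ![7, 4, 2, 1]),
    (15, ![5, 5, 3, 2]), (18, ![6, 5, 4, 3]), (18, ![7, 6, 4, 1]), (18, ![8, 5, 3, 2]),
    (18, ![9, 4, 3, 2]), (18, ![9, 5, 3, 1]), (18, ![9, 6, 2, 1]), (20, ![8, 5, 4, 3]),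
    (20, ![9, 5, 4, 2]), (20, ![10, 5, 3, 2]), (20, ![10, 5, 4, 1]), (24, ![8, 7, 6, 3]),
    (24, ![9, 8, 5, 2]), (24, ![11, 8, 3, 2]), (24, ![12, 7, 3, 2]), (30, ![10, 9, 7, 4]),
    (30, ![15, 7, 6, 2]), (30, ![15, 8, 6, 1]), (30, ![15, 10, 4, 1])]

lemma mk {m a b c d : ℕ} {R : List Cert} (h : chkUnits m [a, b, c, d] R = true) :
    ∃ R : List Cert, chkUnits m (List.ofFn ![a, b, c, d]) R = true := by
  have h1 : List.ofFn ![a, b, c, d] = [a, b, c, d] := by simp [List.ofFn_succ]
  rw [h1]
  exact ⟨R, h⟩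

theorem result (m : ℕ) [NeZero m] (w : Fin 4 → ℕ) (h : (m, w) ∈ types) (k : ℕ) (hk : 1 ≤ k)
    (u : Fin k → (ZMod m)ˣ) (hu : Function.Injective u) :
    DivBy (∑ i, (Finset.univ : Finset (Fin 4)).val.map fun l => (u i : ZMod m) * (w l : ZMod m))
      (2 * k - 1) := by
  have hall : ∀ e ∈ types, ∃ R : List Cert, chkUnits e.1 (List.ofFn e.2) R = true := by
    unfold types
    simp only [List.forall_mem_cons]
    exact ⟨mk K3.k12_5_3_2_2,
    mk K3.k14_5_4_3_2,
    mk K3.k14_7_3_2_2,
    mk K3.k14_7_4_2_1,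
    mk K3.k15_5_5_3_2,
    mk K3.k18_6_5_4_3,
    mk K3.k18_7_6_4_1,
    mk K3.k18_8_5_3_2,
    mk K3.k18_9_4_3_2,
    mk K3.k18_9_5_3_1,
    mk K3.k18_9_6_2_1,
    mk K3.k20_8_5_4_3,
    mk K3.k20_9_5_4_2,
    mk K3.k20_10_5_3_2,
    mk K3.k20_10_5_4_1,
    mk K3.k24_8_7_6_3,
    mk K3.k24_9_8_5_2,
    mk K3.k24_11_8_3_2,
    mk K3.k24_12_7_3_2,
    mk K3.k30_10_9_7_4,
    mk K3.k30_15_7_6_2,
    mk K3.k30_15_8_6_1,
    mk K3.k30_15_10_4_1,
    fun x hx => absurd hx List.not_mem_nil⟩
  have hm : ∀ e ∈ types, 3 ≤ e.1 := by decide +kernel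
  obtain ⟨R, h1⟩ := hall (m, w) h
  have hm3 := hm (m, w) h
  simp only at h1 hm3
  have h2 := units_of_free (n := 4) (by norm_num) hm3
    (chkUnits_sound (by omega) (vals_ofFn (m := m) w) h1)
  classical
  have h3 := h2 ((Finset.univ.image u).card - 1) (Finset.univ.image u) (by
    rw [Finset.card_image_of_injective _ hu, Finset.card_univ, Fintype.card_fin]
    omega)
  rw [Finset.sum_image (fun x _ y _ h => hu h), Finset.card_image_of_injective _ hu,
    Finset.card_univ, Fintype.card_fin] at h3
  have h4 : ∀ i, tw (u i) (vals fun l => (w l : ZMod m)) =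
      (Finset.univ : Finset (Fin 4)).val.map fun l => (u i : ZMod m) * (w l : ZMod m) :=
    fun i => tw_vals _ _
  simp only [h4] at h3
  exact h3

end Pool.Agent.Results.MP_292d0f_ag.FermatK3Further
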